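import Mathlib

set_option autoImplicit false
open Finset

namespace Pool.Agent.Results.MP_106823_nt.Divergent

/-- The accelerated Collatz trajectory of `x`: `x_n = (3 x_{n-1} + 1) / 2^{a_n}`, with `a_n` the
exponent of `2` in `3 x_{n-1} + 1`. -/
def traj (x : ℕ) : ℕ → ℕ
  | 0 => x
  | n + 1 => (3 * traj x n + 1) / 2 ^ padicValNat 2 (3 * traj x n + 1)

/-- The E-sequence of `x`: `E x n = a_n` for `n ≥ 1`. -/
def E (x n : ℕ) : ℕ := padicValNat 2 (3 * traj x (n - 1) + 1)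

open Classical in
/-- `q n = 2` if `n` is one of `2^2, 3^2, ...` and `q n = 1` otherwise. -/
noncomputable def q (n : ℕ) : ℕ := if ∃ j : ℕ, 2 ≤ j ∧ n = j ^ 2 then 2 else 1

def W (s : ℕ → ℚ) : ℕ → ℕ → ℚ
  | 0, n => s n
  | m + 1, n => W s m (n + 1) - (2 / 3) ^ (2 * m) * W s m n

lemma W_add (s t : ℕ → ℚ) (m n : ℕ) : W (fun n => s n + t n) m n = W s m n + W t m n := by
  induction m generalizing n with
  | zero => rfl
  | succ m ih => simp only [W, ih]; ring

lemma W_sum (g : ℕ → ℕ → ℚ) (M m n : ℕ) :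
    W (fun n => ∑ i ∈ range M, g i n) m n = ∑ i ∈ range M, W (g i) m n := by
  induction m generalizing n with
  | zero => rfl
  | succ m ih => simp only [W, ih, sum_sub_distrib, mul_sum]

lemma W_geo (c : ℚ) (i m n : ℕ) : W (fun n => c * (2 / 3) ^ (2 * i * n)) m n =
    c * (2 / 3) ^ (2 * i * n) * ∏ k ∈ range m, ((2 / 3 : ℚ) ^ (2 * i) - (2 / 3) ^ (2 * k)) := by
  induction m generalizing n with
  | zero => simp [W]
  | succ m ih => simp only [W, ih, prod_range_succ]; ring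

lemma n2 : padicNorm 2 (2 : ℚ) = 1 / 2 := by
  have := padicNorm.padicNorm_p_of_prime (p := 2)
  simpa using this

lemma n23 : padicNorm 2 (2 / 3 : ℚ) = 1 / 2 := by
  have h : padicNorm 2 (3 : ℚ) = 1 := by
    have := padicNorm.padicNorm_of_prime_of_ne (p := 2) (q := 3) (by norm_num)
    simpa using this
  rw [padicNorm.div, n2, h]; norm_num

lemma npow (a : ℚ) (k : ℕ) : padicNorm 2 (a ^ k) = padicNorm 2 a ^ k := by
  induction k with
  | zero => simp
  | succ k ih => rw [pow_succ, padicNorm.mul, ih, pow_succ]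

lemma W_norm (s : ℕ → ℚ) (c M : ℕ) (h : ∀ n, padicNorm 2 (s n) ≤ (1 / 2) ^ (c + 2 * M * n))
    (m : ℕ) (hm : m ≤ M) (n : ℕ) :
    padicNorm 2 (W s m n) ≤ (1 / 2) ^ (c + 2 * M * n + ∑ k ∈ range m, 2 * k) := by
  induction m generalizing n with
  | zero => simpa [W] using h n
  | succ m ih =>
    refine padicNorm.sub.trans (max_le ((ih (by omega) _).trans ?_) ?_)
    · apply pow_le_pow_of_le_one (by norm_num) (by norm_num)
      rw [sum_range_succ]; nlinarith
    · rw [padicNorm.mul, npow, n23, sum_range_succ, ← add_assoc, pow_add _ _ (2 * m), mul_comm]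
      exact mul_le_mul_of_nonneg_right (ih (by omega) n) (by positivity)

lemma W_int (s : ℕ → ℚ) (h : ∀ n, ∃ z : ℤ, s n = z) (m n : ℕ) :
    ∃ z : ℤ, 3 ^ (∑ k ∈ range m, 2 * k) * W s m n = z := by
  induction m generalizing n with
  | zero => simpa [W] using h n
  | succ m ih =>
    obtain ⟨a, ha⟩ := ih (n + 1)
    obtain ⟨b, hb⟩ := ih n
    refine ⟨3 ^ (2 * m) * a - 2 ^ (2 * m) * b, ?_⟩
    push_cast
    rw [← ha, ← hb, sum_range_succ, W, div_pow, pow_add]
    field_simp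

lemma W_abs (s : ℕ → ℚ) (B : ℕ → ℚ) (hB : Monotone B) (h : ∀ n, |s n| ≤ B n) (m n : ℕ) :
    |W s m n| ≤ 2 ^ m * B (n + m) := by
  induction m generalizing n with
  | zero => simpa [W] using h n
  | succ m ih =>
    have h1 := ih (n + 1)
    have h2 := ih n
    have h3 : B (n + m) ≤ B (n + 1 + m) := hB (by omega)
    have h4 : (2 / 3 : ℚ) ^ (2 * m) ≤ 1 := pow_le_one₀ (by norm_num) (by norm_num)
    have h5 : (0 : ℚ) < 2 ^ m := by positivity
    rw [W, show n + (m + 1) = n + 1 + m by omega, pow_succ]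
    refine (abs_sub _ _).trans ?_
    rw [abs_mul, abs_of_nonneg (by positivity : (0 : ℚ) ≤ (2 / 3) ^ (2 * m))]
    have h6 := mul_le_of_le_one_left (abs_nonneg (W s m n)) h4
    nlinarith

lemma sum2 (m : ℕ) : ∑ k ∈ range m, 2 * k + m = m ^ 2 := by
  induction m with
  | zero => simp
  | succ m ih => rw [sum_range_succ]; nlinarith

lemma key (t : ℕ → ℕ) (h1 : ∀ n, 1 ≤ t n)
    (h : ∀ n, (t n : ℚ) = -1 + 2 * (2 / 3) ^ (2 * n + 3) * t (n + 1)) : False := by
  have hun : ∀ M n, (t n : ℚ) = ∑ i ∈ range M, (-(2 ^ i * (2 / 3) ^ (i ^ 2 + 2 * i))) *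
      (2 / 3) ^ (2 * i * n) + 2 ^ M * (2 / 3) ^ (M ^ 2 + 2 * M + 2 * M * n) * t (n + M) := by
    intro M n
    induction M with
    | zero => simp
    | succ M ih => rw [ih, sum_range_succ, h (n + M), ← add_assoc n M 1]; ring
  have hB : ∀ n, |(t n : ℚ)| ≤ t 0 * (3 / 2) ^ ((n + 1) ^ 2) := by
    intro n
    rw [abs_of_nonneg (Nat.cast_nonneg _)]
    induction n with
    | zero => simp; linarith [(Nat.cast_nonneg (t 0) : (0 : ℚ) ≤ t 0)]
    | succ n ih =>
      have h2 : (1 : ℚ) ≤ t n := by exact_mod_cast h1 n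
      have h3 : (3 / 2 : ℚ) ^ (2 * n + 3) * (2 / 3) ^ (2 * n + 3) = 1 := by
        rw [← mul_pow]; norm_num
      have h4 : (0 : ℚ) < (3 / 2) ^ (2 * n + 3) := by positivity
      have h5 : (t (n + 1) : ℚ) ≤ (3 / 2) ^ (2 * n + 3) * t n := by
        have : 2 * (t (n + 1) : ℚ) = (3 / 2) ^ (2 * n + 3) * (t n + 1) := by
          rw [h n]; linear_combination (-2 * (t (n + 1) : ℚ)) * h3
        nlinarith
      rw [show (n + 1 + 1) ^ 2 = (n + 1) ^ 2 + (2 * n + 3) by ring, pow_add _ _ (2 * n + 3)]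
      nlinarith
  have main : ∀ m : ℕ, (2 : ℚ) ^ (4 * m ^ 2 + 2 * m) ≤
      3 ^ (m ^ 2) * (2 ^ m * (t 0 * (3 / 2) ^ ((m + m + 1) ^ 2))) := by
    intro m
    set S := ∑ k ∈ range m, 2 * k with hS
    have hS2 : S + m = m ^ 2 := sum2 m
    have e : W (fun n => (t n : ℚ)) m m = -(2 ^ m * (2 / 3) ^ (m ^ 2 + 2 * m)) *
        (2 / 3) ^ (2 * m * m) * ∏ k ∈ range m, ((2 / 3 : ℚ) ^ (2 * m) - (2 / 3) ^ (2 * k)) +
        W (fun n => 2 ^ (m + 1) * (2 / 3) ^ ((m + 1) ^ 2 + 2 * (m + 1) + 2 * (m + 1) * n) *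
          t (n + (m + 1))) m m := by
      rw [funext (hun (m + 1)), W_add, W_sum, sum_range_succ, W_geo, sum_eq_zero, zero_add]
      intro i hi
      rw [W_geo, prod_eq_zero hi (sub_self _), mul_zero]
    have e1 : padicNorm 2 (-(2 ^ m * (2 / 3) ^ (m ^ 2 + 2 * m)) *
        (2 / 3) ^ (2 * m * m) * ∏ k ∈ range m, ((2 / 3 : ℚ) ^ (2 * m) - (2 / 3) ^ (2 * k)))
        = (1 / 2) ^ (4 * m ^ 2 + 2 * m) := by
      have e2 : ∀ j ≤ m, padicNorm 2 (∏ k ∈ range j, ((2 / 3 : ℚ) ^ (2 * m) - (2 / 3) ^ (2 * k)))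
          = (1 / 2) ^ (∑ k ∈ range j, 2 * k) := by
        intro j hj
        induction j with
        | zero => simp
        | succ j ih =>
          have e3 : (1 / 2 : ℚ) ^ (2 * m) < (1 / 2) ^ (2 * j) :=
            pow_lt_pow_right_of_lt_one₀ (by norm_num) (by norm_num) (by omega)
          rw [prod_range_succ, sum_range_succ, padicNorm.mul, ih (by omega), pow_add,
            sub_eq_add_neg, padicNorm.add_eq_max_of_ne, padicNorm.neg, npow, npow, n23,
            max_eq_right e3.le]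
          rw [padicNorm.neg, npow, npow, n23]
          exact e3.ne
      simp only [padicNorm.mul, padicNorm.neg, npow, n2, n23, e2 m le_rfl, ← pow_add]
      congr 1
      nlinarith
    have e2 := W_norm (fun n => 2 ^ (m + 1) *
      (2 / 3) ^ ((m + 1) ^ 2 + 2 * (m + 1) + 2 * (m + 1) * n) * t (n + (m + 1)))
      (m + 1 + ((m + 1) ^ 2 + 2 * (m + 1))) (m + 1) (fun n => by
        simp only [padicNorm.mul, npow, n2, n23, ← pow_add, add_assoc]
        exact mul_le_of_le_one_right (by positivity) (padicNorm.of_nat _)) m (by omega) m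
    have e3 := e2.trans_lt (pow_lt_pow_right_of_lt_one₀ (a := (1 / 2 : ℚ)) (by norm_num)
      (by norm_num) (show 4 * m ^ 2 + 2 * m < _ by rw [← hS]; nlinarith))
    have e4 : padicNorm 2 (W (fun n => (t n : ℚ)) m m) = (1 / 2) ^ (4 * m ^ 2 + 2 * m) := by
      rw [e, padicNorm.add_eq_max_of_ne (by rw [e1]; exact e3.ne'), e1, max_eq_left e3.le]
    obtain ⟨z, hz⟩ := W_int (fun n => (t n : ℚ)) (fun n => ⟨t n, by simp⟩) m m
    have h3 : padicNorm 2 (3 : ℚ) = 1 := by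
      have := padicNorm.padicNorm_of_prime_of_ne (p := 2) (q := 3) (by norm_num)
      simpa using this
    have e5 : padicNorm 2 (z : ℚ) = (1 / 2) ^ (4 * m ^ 2 + 2 * m) := by
      rw [← hz, padicNorm.mul, npow, h3, one_pow, one_mul, e4]
    have hz0 : z ≠ 0 := by
      rintro rfl
      simp only [Int.cast_zero, padicNorm.zero] at e5
      exact absurd e5 (by positivity : (0 : ℚ) < _).ne
    have e6 : ((2 ^ (4 * m ^ 2 + 2 * m) : ℕ) : ℤ) ∣ z := padicNorm.dvd_iff_norm_le.mpr (by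
      rw [e5, zpow_neg, zpow_natCast, one_div, inv_pow]; simp)
    have e7 : (2 : ℚ) ^ (4 * m ^ 2 + 2 * m) ≤ |(z : ℚ)| := by
      exact_mod_cast Int.le_of_dvd (abs_pos.mpr hz0) ((dvd_abs _ _).mpr e6)
    refine e7.trans ?_
    rw [← hz, abs_mul, abs_of_nonneg (by positivity)]
    refine mul_le_mul (pow_le_pow_right₀ (by norm_num) (by omega)) (W_abs _
      (fun n => t 0 * (3 / 2) ^ ((n + 1) ^ 2)) (fun a b hab => ?_) hB m m) (abs_nonneg _)
      (by positivity)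
    exact mul_le_mul_of_nonneg_left (pow_le_pow_right₀ (by norm_num) (by nlinarith))
      (Nat.cast_nonneg _)
  set m := 100 * (t 0 + 1) with hm
  have h2 := main m
  have h3 : (3 : ℚ) ^ (m ^ 2) * (2 ^ m * (t 0 * (3 / 2) ^ ((m + m + 1) ^ 2))) =
      2 ^ (4 * m ^ 2 + 2 * m) * (((243 / 256) ^ m * (81 / 32)) ^ m * (3 / 2) * t 0) := by
    have e1 : (243 / 256 : ℚ) = 3 * (3 / 2) ^ 4 / 2 ^ 4 := by norm_num
    have e2 : (81 / 32 : ℚ) = 2 * (3 / 2) ^ 4 / 2 ^ 2 := by norm_num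
    rw [e1, e2]
    generalize (3 / 2 : ℚ) = r
    simp only [mul_pow, div_pow, ← pow_mul]
    field_simp
    ring_nf
  have h4 : (243 / 256 : ℚ) ^ m * (81 / 32) ≤ 1 / 2 := by
    have h5 : (243 / 256 : ℚ) ^ m ≤ (243 / 256) ^ 100 :=
      pow_le_pow_of_le_one (by norm_num) (by norm_num) (by omega)
    have h6 : (243 / 256 : ℚ) ^ 100 ≤ 1 / 10 := by norm_num
    linarith
  have h5 := pow_le_pow_left₀ (by positivity) h4 m
  have h6 : (1 / 2 : ℚ) ^ m * m ≤ 1 := by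
    rw [one_div, inv_pow, inv_mul_le_iff₀ (by positivity), mul_one]
    exact_mod_cast (Nat.lt_two_pow_self).le
  have h7 : (m : ℚ) = 100 * (t 0 + 1) := by rw [hm]; push_cast; ring
  rw [h3, le_mul_iff_one_le_right (by positivity)] at h2
  have h8 : (0 : ℚ) ≤ t 0 := Nat.cast_nonneg _
  have h9 : (0 : ℚ) < (1 / 2) ^ m := by positivity
  rw [h7] at h6
  nlinarith

theorem result : ¬ ∃ x : ℕ, Odd x ∧ ∀ n : ℕ, 1 ≤ n → E x n = q n := by
  rintro ⟨x, -, h⟩
  have hs : ∀ n, 2 ^ q (n + 1) * traj x (n + 1) = 3 * traj x n + 1 := fun n => by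
    rw [← h (n + 1) (by omega)]
    exact Nat.mul_div_cancel' pow_padicValNat_dvd
  have h1 : ∀ j i : ℕ, i ≤ 2 * j + 2 → (traj x ((j + 1) ^ 2 + i) : ℚ) + 1 =
      (3 / 2) ^ i * (traj x ((j + 1) ^ 2) + 1) := by
    intro j i hi
    induction i with
    | zero => simp
    | succ i ih =>
      have h2 := hs ((j + 1) ^ 2 + i)
      rw [q, if_neg] at h2
      · have h3 : (2 : ℚ) * traj x ((j + 1) ^ 2 + i + 1) = 3 * traj x ((j + 1) ^ 2 + i) + 1 := by
          exact_mod_cast h2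
        rw [← add_assoc, pow_succ (3 / 2 : ℚ)]
        linear_combination h3 / 2 + (3 / 2) * ih (by omega)
      · rintro ⟨k, -, hk⟩
        have h3 : j + 1 < k := lt_of_pow_lt_pow_left₀ 2 (by omega) (by omega)
        nlinarith
  refine key (fun j => 2 * traj x ((j + 1) ^ 2) + 1) (fun _ => by omega) fun j => ?_
  have h2 := hs ((j + 1) ^ 2 + (2 * j + 2))
  rw [show (j + 1) ^ 2 + (2 * j + 2) + 1 = (j + 1 + 1) ^ 2 by ring, q,
    if_pos ⟨j + 1 + 1, by omega, rfl⟩] at h2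
  have h3 : (4 : ℚ) * traj x ((j + 1 + 1) ^ 2) = 3 * traj x ((j + 1) ^ 2 + (2 * j + 2)) + 1 := by
    exact_mod_cast h2
  have h4 := h1 j _ le_rfl
  have h5 : (3 / 2 : ℚ) ^ (2 * j + 2) * (2 / 3) ^ (2 * j + 2) = 1 := by
    rw [← mul_pow]; norm_num
  push_cast
  rw [pow_succ (2 / 3 : ℚ) (2 * j + 2)]
  linear_combination (-(2 / 3) * (2 / 3) ^ (2 * j + 2)) * h3 - 2 * (2 / 3) ^ (2 * j + 2) * h4
    - 2 * ((traj x ((j + 1) ^ 2) : ℚ) + 1) * h5

end Pool.Agent.Results.MP_106823_nt.Divergent
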